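import Mathlib
import Pool.Agent.H7.Veto

set_option autoImplicit false

namespace Pool.Agent.Results.MP_230f06_co.NotMPVI

open Pool.Agent.H7.Veto

theorem result : ∃ (V : Type) (_ : Fintype V) (G : SimpleGraph V), UVI G ∧ ¬ MPVI G := by
  obtain ⟨G, h1, h2⟩ := fourteen
  exact ⟨_, inferInstance, G, h1, fun h => h2 (mpvi_col h)⟩

end Pool.Agent.Results.MP_230f06_co.NotMPVI
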